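import Pool.Agent.Y6.F.Chn

/-! The sector of a driven pair. -/

open Set Filter Topology
open scoped ComplexConjugate

set_option autoImplicit false

namespace Pool.Agent.Y884.EF.PairB

open Pool.Agent.Y6.F (PairF S_PAIRA S_PAIRB)

lemma c_bounds {c s τ : ℝ} (hτ0 : 0 ≤ τ) (hτ : τ ≤ 1 / 10) (hc : 0 < c)
    (hcs : c ^ 2 + s ^ 2 = 1) (hs : s = τ * c) :
    99 / 100 ≤ c ∧ c ≤ 1 ∧ c * (c + τ * s) = 1 ∧ c * τ ≤ 1 / 10 := by
  have h1 : c ^ 2 * (1 + τ ^ 2) = 1 := by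
    calc c ^ 2 * (1 + τ ^ 2) = c ^ 2 + (τ * c) ^ 2 := by ring
      _ = 1 := by rw [← hs]; exact hcs
  have h2 : τ ^ 2 ≤ 1 / 100 := by nlinarith
  have h3 := mul_le_mul_of_nonneg_left h2 (sq_nonneg c)
  have h4 : (99 / 100 : ℝ) ^ 2 ≤ c ^ 2 := by linarith
  have h5 : c ^ 2 ≤ 1 ^ 2 := by nlinarith [sq_nonneg s]
  have h6 : c ≤ 1 := (abs_le_of_sq_le_sq' h5 (by norm_num)).2
  refine ⟨(abs_le_of_sq_le_sq' h4 hc.le).2, h6, ?_, by nlinarith⟩
  calc c * (c + τ * s) = c ^ 2 + (τ * c) * s := by ring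
    _ = 1 := by rw [← hs, ← hcs]; ring

lemma cs_le {c s x y K : ℝ} (hcs : c ^ 2 + s ^ 2 = 1) (hK : 0 ≤ K)
    (h : x ^ 2 + y ^ 2 ≤ K ^ 2) : |c * x + s * y| ≤ K := by
  refine abs_le_of_sq_le_sq (?_ : _ ≤ _) hK
  have : (c * x + s * y) ^ 2 ≤ (c ^ 2 + s ^ 2) * (x ^ 2 + y ^ 2) := by
    nlinarith [sq_nonneg (c * y - s * x)]
  rw [hcs, one_mul] at this
  exact this.trans h

/-- main parts -/
lemma signs {c s τ X Y : ℝ} (hτ0 : 0 ≤ τ) (hτ : τ ≤ 1 / 10) (hc : 0 < c) (hs : s = τ * c)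
    (hX : 0 ≤ X) (hY : |Y| ≤ τ * X) : 0 ≤ c * X + s * Y ∧ c * Y - s * X ≤ 0 := by
  obtain ⟨h1, h2⟩ := abs_le.1 hY
  subst hs
  constructor
  · have : 0 ≤ X + τ * Y := by nlinarith [mul_le_mul_of_nonneg_left h1 hτ0]
    nlinarith [mul_nonneg hc.le this]
  · nlinarith [mul_nonneg hc.le (sub_nonneg.2 h2)]

lemma bndS {c s τ : ℝ} {S : ℂ} (hτ0 : 0 ≤ τ) (hc : 0 < c) (hcs : c ^ 2 + s ^ 2 = 1)
    (hs : s = τ * c) (hS : |S.im| ≤ τ * S.re) : |S.im| ≤ c * τ * ‖S‖ := by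
  refine abs_le_of_sq_le_sq (?_ : _ ≤ _) (by positivity)
  have h1 : S.im ^ 2 ≤ (τ * S.re) ^ 2 := by
    rw [← sq_abs]
    exact pow_le_pow_left₀ (abs_nonneg _) hS 2
  have h2 : ‖S‖ ^ 2 = S.re ^ 2 + S.im ^ 2 := by
    rw [Complex.sq_norm, Complex.normSq_apply]
    ring
  have h3 : S.im ^ 2 = c ^ 2 * S.im ^ 2 + s ^ 2 * S.im ^ 2 := by
    rw [← add_mul, hcs, one_mul]
  have h4 := mul_le_mul_of_nonneg_left h1 (sq_nonneg c)
  have h5 : (c * τ * ‖S‖) ^ 2 = c ^ 2 * (τ * S.re) ^ 2 + s ^ 2 * S.im ^ 2 := by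
    rw [mul_pow, h2, hs]
    ring
  rw [h5]
  linarith

/-- real numbers: the last estimate of `stat` -/
lemma fin_alg {κ τ c s a P Q k : ℝ} (hκ0 : 0 ≤ κ) (hκ : κ ≤ 1 / 10 ^ 4)
    (hc : 0 < c) (hc99 : 99 / 100 ≤ c) (hcc : c * (c + τ * s) = 1) (hs : s = τ * c)
    (h5 : c * τ ≤ 1 / 10) (ha1 : -k ≤ c * P + s * Q) (hk : k ≤ 1305 / 100 * κ * a ^ 2)
    (hQ : -Q ≤ c * τ * (a ^ 2 * (1 + 25 * κ)) + k) :
    s * P - c * Q ≤ (τ + 20 * κ) * (a ^ 2 + (c * P + s * Q)) := by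
  have hM0 : 0 ≤ a ^ 2 := sq_nonneg a
  have hκM : 0 ≤ κ * a ^ 2 := mul_nonneg hκ0 hM0
  have hmain : c * (s * P - c * Q - τ * (a ^ 2 + (c * P + s * Q))) = -Q - c * τ * a ^ 2 := by
    have h2 : s * P - c * Q - τ * (a ^ 2 + (c * P + s * Q)) =
        -((c + τ * s) * Q) - τ * a ^ 2 := by
      rw [hs]
      ring
    rw [h2]
    have : c * (-((c + τ * s) * Q) - τ * a ^ 2) = -((c * (c + τ * s)) * Q) - c * τ * a ^ 2 := by
      ring
    rw [this, hcc, one_mul]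
  have hκκ := mul_le_mul_of_nonneg_right hκ hM0
  have hR2 : 998 / 1000 * a ^ 2 ≤ a ^ 2 + (c * P + s * Q) := by linarith
  have h6 := mul_le_mul_of_nonneg_right h5 hκM
  have h7 : 19 * (κ * a ^ 2) ≤ c * (20 * κ * (a ^ 2 + (c * P + s * Q))) := by
    have h8 : 20 * κ * (998 / 1000 * a ^ 2) ≤ 20 * κ * (a ^ 2 + (c * P + s * Q)) :=
      mul_le_mul_of_nonneg_left hR2 (by positivity)
    have h9 : 99 / 100 * (20 * κ * (998 / 1000 * a ^ 2)) ≤
        c * (20 * κ * (a ^ 2 + (c * P + s * Q))) :=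
      mul_le_mul hc99 h8 (by positivity) hc.le
    linarith
  have h10 : c * (s * P - c * Q - τ * (a ^ 2 + (c * P + s * Q))) ≤
      c * (20 * κ * (a ^ 2 + (c * P + s * Q))) := by
    rw [hmain]
    have : c * τ * (a ^ 2 * (1 + 25 * κ)) = c * τ * a ^ 2 + 25 * (c * τ * (κ * a ^ 2)) := by ring
    rw [this] at hQ
    linarith
  have h11 := le_of_mul_le_mul_left h10 hc
  linarith

/-- static facts -/
lemma stat {τ κ N c s : ℝ} {A B S : ℂ} (hτ0 : 0 ≤ τ) (hτ : τ ≤ 1 / 10) (hκ0 : 0 ≤ κ)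
    (hκ : κ ≤ 1 / 10 ^ 4) (hN : 0 < N) (hc : 0 < c) (hcs : c ^ 2 + s ^ 2 = 1) (hs : s = τ * c)
    (hAN : 48 / 100 * N ≤ ‖A‖) (hAB : -(5 * κ * N ^ 2) ≤ ‖A‖ ^ 2 - ‖B‖ ^ 2)
    (hSre : 0 ≤ S.re)
    (hS : |S.im| ≤ τ * S.re) (hd : ‖B * conj A - S‖ ≤ 3 * κ * N ^ 2) :
    -(3 * κ * N ^ 2) ≤ c * (B * conj A).re + s * (B * conj A).im ∧
    c * (B * conj A).im - s * (B * conj A).re ≤ 3 * κ * N ^ 2 ∧
    s * (B * conj A).re - c * (B * conj A).im ≤
      (τ + 20 * κ) * (‖A‖ ^ 2 + (c * (B * conj A).re + s * (B * conj A).im)) ∧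
    3 * κ * N ^ 2 ≤ 1305 / 100 * κ * ‖A‖ ^ 2 := by
  have hnz : ‖B * conj A‖ = ‖B‖ * ‖A‖ := by rw [norm_mul, Complex.norm_conj]
  have hA0 : 0 < ‖A‖ := lt_of_lt_of_le (by positivity) hAN
  generalize B * conj A = z at hd hnz ⊢
  generalize ‖A‖ = a at *
  obtain ⟨hc99, hc1, hcc, hcτ⟩ := c_bounds hτ0 hτ hc hcs hs
  have hNM : N ^ 2 ≤ 435 / 100 * a ^ 2 := by
    have h1 : (48 / 100 * N) ^ 2 ≤ a ^ 2 := pow_le_pow_left₀ (by positivity) hAN 2
    have h2 : (48 / 100 * N) ^ 2 = 2304 / 10000 * N ^ 2 := by ring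
    rw [h2] at h1
    linarith [sq_nonneg N]
  have hM0 : 0 < a ^ 2 := by positivity
  have hκM : 0 ≤ κ * a ^ 2 := by positivity
  have hκNM : κ * N ^ 2 ≤ κ * (435 / 100 * a ^ 2) := mul_le_mul_of_nonneg_left hNM hκ0
  have h3 : 3 * κ * N ^ 2 ≤ 1305 / 100 * κ * a ^ 2 := by linarith
  -- the error
  obtain ⟨e, rfl⟩ : ∃ e, z = S + e := ⟨z - S, by ring⟩
  have hd' : ‖e‖ ≤ 3 * κ * N ^ 2 := by rwa [add_sub_cancel_left] at hd
  have he2 : e.re ^ 2 + e.im ^ 2 ≤ (3 * κ * N ^ 2) ^ 2 := by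
    have h1 : ‖e‖ ^ 2 ≤ (3 * κ * N ^ 2) ^ 2 := pow_le_pow_left₀ (norm_nonneg _) hd' 2
    rw [Complex.sq_norm, Complex.normSq_apply] at h1
    linarith
  have hκN : 0 ≤ 3 * κ * N ^ 2 := by positivity
  have hE1 : |c * e.re + s * e.im| ≤ 3 * κ * N ^ 2 := cs_le hcs hκN he2
  have hE2 : |c * e.im + (-s) * e.re| ≤ 3 * κ * N ^ 2 :=
    cs_le (by rw [neg_sq]; exact hcs) hκN (by linarith)
  have hE3 : |e.im| ≤ 3 * κ * N ^ 2 := (Complex.abs_im_le_norm e).trans hd'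
  obtain ⟨hR1, hI1⟩ := signs hτ0 hτ hc hs hSre hS
  have hB : ‖B‖ ≤ a * (1 + 11 * κ) := by
    have h1 : (a * (1 + 11 * κ)) ^ 2 = a ^ 2 + 22 * (κ * a ^ 2) + 121 * (κ * κ * a ^ 2) := by ring
    have h5 : 0 ≤ κ * κ * a ^ 2 := by positivity
    have h6 : ‖B‖ ^ 2 ≤ (a * (1 + 11 * κ)) ^ 2 := by
      rw [h1]
      linarith
    exact abs_le_of_sq_le_sq' h6 (by positivity) |>.2
  have hz1 : ‖S + e‖ ≤ a ^ 2 * (1 + 11 * κ) := by
    rw [hnz]
    have := mul_le_mul_of_nonneg_right hB hA0.le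
    linarith [show a * (1 + 11 * κ) * a = a ^ 2 * (1 + 11 * κ) by ring]
  have hS1 : ‖S‖ ≤ a ^ 2 * (1 + 25 * κ) := by
    have h1 : ‖S‖ ≤ ‖S + e‖ + ‖e‖ := by
      have := norm_sub_le (S + e) e
      rwa [add_sub_cancel_right] at this
    have h5 : a ^ 2 * (1 + 25 * κ) = a ^ 2 * (1 + 11 * κ) + 14 * (κ * a ^ 2) := by ring
    rw [h5]
    linarith
  have hS2 := bndS hτ0 hc hcs hs hS
  rw [Complex.add_re, Complex.add_im]
  have ha1 : -(3 * κ * N ^ 2) ≤ c * (S.re + e.re) + s * (S.im + e.im) := by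
    linarith [(abs_le.1 hE1).1]
  have hQ : -(S.im + e.im) ≤ c * τ * (a ^ 2 * (1 + 25 * κ)) + 3 * κ * N ^ 2 := by
    have h1 := (abs_le.1 hS2).1
    have h2 := (abs_le.1 hE3).1
    have h4 : c * τ * ‖S‖ ≤ c * τ * (a ^ 2 * (1 + 25 * κ)) :=
      mul_le_mul_of_nonneg_left hS1 (by positivity)
    linarith
  refine ⟨ha1, ?_, ?_, h3⟩
  · linarith [(abs_le.1 hE2).2]
  · exact fin_alg hκ0 hκ hc hc99 hcc hs hcτ ha1 h3 hQ

/-- the derivative of the angle, in terms of products -/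
lemma dyn {ρ τ κ N c s : ℝ} {p A B F H : ℂ} (hρ : 0 ≤ ρ) (hτ0 : 0 ≤ τ) (hτ : τ ≤ 1 / 10)
    (hκ0 : 0 ≤ κ) (hN : 0 < N) (hc : 0 < c) (hc1 : c ≤ 1)
    (hcs : c ^ 2 + s ^ 2 = 1) (hs : s = τ * c)
    (hp : |p.im| ≤ τ * p.re) (hAB : -(5 * κ * N ^ 2) ≤ ‖A‖ ^ 2 - ‖B‖ ^ 2)
    (hF : ‖F‖ ≤ 2 * κ * N) (hH : ‖H‖ ≤ 2 * κ * N) :
    (((ρ : ℂ) * conj p * B + F + (⟨c, -s⟩ : ℂ) * ((ρ : ℂ) * p * A + H)) *
      conj (A + (⟨c, -s⟩ : ℂ) * B)).im ≤
      ρ * κ * ‖p‖ * N ^ 2 + 4 * κ * N * ‖A + (⟨c, -s⟩ : ℂ) * B‖ := by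
  set ω : ℂ := ⟨c, -s⟩ with hω
  have hωn : ‖ω‖ = 1 := by
    have h1 : ‖ω‖ ^ 2 = 1 := by
      rw [Complex.sq_norm, Complex.normSq_apply, hω]
      show c * c + -s * -s = 1
      linarith
    have h2 := norm_nonneg ω
    nlinarith
  have hid : (((ρ : ℂ) * conj p * B + F + ω * ((ρ : ℂ) * p * A + H)) *
      conj (A + ω * B)).im = ρ * ((c * p.im - s * p.re) * (‖A‖ ^ 2 - ‖B‖ ^ 2)) +
      ((F + ω * H) * conj (A + ω * B)).im := by
    have hA2 : ‖A‖ ^ 2 = A.re ^ 2 + A.im ^ 2 := by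
      rw [Complex.sq_norm, Complex.normSq_apply]; ring
    have hB2 : ‖B‖ ^ 2 = B.re ^ 2 + B.im ^ 2 := by
      rw [Complex.sq_norm, Complex.normSq_apply]; ring
    rw [hA2, hB2, hω]
    simp only [Complex.mul_im, Complex.mul_re, Complex.add_im, Complex.add_re, Complex.conj_re,
      Complex.conj_im, Complex.ofReal_re, Complex.ofReal_im]
    linear_combination (ρ * ((p.re * A.re - p.im * A.im) * (-B.im) +
      (p.re * A.im + p.im * A.re) * B.re)) * hcs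
  rw [hid]
  have h1 : ρ * ((c * p.im - s * p.re) * (‖A‖ ^ 2 - ‖B‖ ^ 2)) ≤ ρ * κ * ‖p‖ * N ^ 2 := by
    have hpre : 0 ≤ τ * p.re := (abs_nonneg _).trans hp
    obtain ⟨h3, h4⟩ := abs_le.1 hp
    have h5 : c * p.im - s * p.re ≤ 0 := by
      rw [hs]
      have := mul_nonneg hc.le (sub_nonneg.2 h4)
      linarith
    have h6 : -(1 / 5 * ‖p‖) ≤ c * p.im - s * p.re := by
      have h7 : c * (τ * p.re) ≤ 1 / 10 * ‖p‖ := by
        have h8 : c * (τ * p.re) ≤ 1 * (τ * p.re) := mul_le_mul_of_nonneg_right hc1 hpre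
        have h9 : τ * p.re ≤ τ * ‖p‖ := mul_le_mul_of_nonneg_left (Complex.re_le_norm p) hτ0
        have h10 : τ * ‖p‖ ≤ 1 / 10 * ‖p‖ := mul_le_mul_of_nonneg_right hτ (norm_nonneg _)
        linarith
      have h11 : c * (-(τ * p.re)) ≤ c * p.im := mul_le_mul_of_nonneg_left h3 hc.le
      rw [hs]
      linarith
    have h12 : (c * p.im - s * p.re) * (‖A‖ ^ 2 - ‖B‖ ^ 2) ≤ κ * ‖p‖ * N ^ 2 := by
      have h13 : (c * p.im - s * p.re) * (‖A‖ ^ 2 - ‖B‖ ^ 2) ≤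
          (c * p.im - s * p.re) * (-(5 * κ * N ^ 2)) :=
        mul_le_mul_of_nonpos_left hAB h5
      have h14 : (-(c * p.im - s * p.re)) * (5 * κ * N ^ 2) ≤ (1 / 5 * ‖p‖) * (5 * κ * N ^ 2) :=
        mul_le_mul_of_nonneg_right (by linarith) (by positivity)
      linarith
    have := mul_le_mul_of_nonneg_left h12 hρ
    linarith
  have h2 : ((F + ω * H) * conj (A + ω * B)).im ≤ 4 * κ * N * ‖A + ω * B‖ := by
    refine (le_abs_self _).trans ((Complex.abs_im_le_norm _).trans ?_)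
    rw [norm_mul, Complex.norm_conj]
    refine mul_le_mul_of_nonneg_right ?_ (norm_nonneg _)
    refine (norm_add_le _ _).trans ?_
    rw [norm_mul, hωn, one_mul]
    linarith
  linarith

/-- the quotients -/
lemma quot {ρ κ N U D P W : ℝ} (hκ0 : 0 ≤ κ) (hκ : κ ≤ 1 / 10 ^ 4) (hρ : 0 ≤ ρ) (hP : 0 ≤ P)
    (hN : 0 < N) (hU0 : 0 ≤ U) (hU : 49 / 100 * N ^ 2 ≤ U ^ 2)
    (hD : (19 / 10 * ρ * P - 5 * κ) * N ^ 2 ≤ D) (hW : W ≤ ρ * κ * P * N ^ 2 + 4 * κ * N * U) :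
    W / U ^ 2 ≤ 11 / 10 * κ * (D / N ^ 2) + 6 * κ := by
  have hN2 : 0 < N ^ 2 := by positivity
  have hU2 : 0 < U ^ 2 := lt_of_lt_of_le (by positivity) hU
  have hU7 : 7 / 10 * N ≤ U := by
    have h1 : (7 / 10 * N) ^ 2 ≤ U ^ 2 := by
      have : (7 / 10 * N) ^ 2 = 49 / 100 * N ^ 2 := by ring
      rw [this]
      exact hU
    exact (abs_le_of_sq_le_sq' h1 hU0).2
  have hUp : 0 < U := lt_of_lt_of_le (by positivity) hU7
  set d : ℝ := D / N ^ 2 with hd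
  have hDd : D = d * N ^ 2 := by rw [hd]; field_simp
  have h1 : 19 / 10 * ρ * P - 5 * κ ≤ d := by
    rw [hDd] at hD
    exact le_of_mul_le_mul_right hD hN2
  have hx0 : 0 ≤ ρ * P := mul_nonneg hρ hP
  rw [div_le_iff₀ hU2]
  have h2 : ρ * κ * P * N ^ 2 ≤ (100 / 49) * (κ * (ρ * P)) * U ^ 2 := by
    have h3 := mul_le_mul_of_nonneg_left hU (show 0 ≤ κ * (ρ * P) by positivity)
    linarith
  have h4 : 4 * κ * N * U ≤ 40 / 7 * κ * U ^ 2 := by
    have h5 := mul_le_mul_of_nonneg_right hU7 (show 0 ≤ 4 * κ * U by positivity)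
    linarith [show 4 * κ * U * U = 4 * κ * U ^ 2 by ring, show 7 / 10 * N * (4 * κ * U) =
      7 / 10 * (4 * κ * N * U) by ring, show U * (4 * κ * U) = 4 * κ * U ^ 2 by ring]
  have h6 : (100 / 49) * (κ * (ρ * P)) + 40 / 7 * κ ≤ 11 / 10 * κ * d + 6 * κ := by
    have h7 : κ * (19 / 10 * ρ * P - 5 * κ) ≤ κ * d := mul_le_mul_of_nonneg_left h1 hκ0
    have h8 : κ * κ ≤ 1 / 10 ^ 4 * κ := mul_le_mul_of_nonneg_right hκ hκ0
    have h9 : 0 ≤ κ * (ρ * P) := by positivity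
    have h10 : κ * (19 / 10 * ρ * P - 5 * κ) = 19 / 10 * (κ * (ρ * P)) - 5 * (κ * κ) := by ring
    rw [h10] at h7
    linarith
  have h11 := mul_le_mul_of_nonneg_right h6 hU2.le
  linarith

/-- combination of the angles -/
lemma comb {τ κ ε m1 m2 u1 u2 a1 a2 U : ℝ} (_hτ0 : 0 ≤ τ) (hτ : τ ≤ 1 / 10) (hκ0 : 0 ≤ κ)
    (hκε : κ ≤ ε) (hε : ε ≤ 1 / 10 ^ 5) (hm1 : 0 < m1) (hm2 : -m2 ≤ (τ + 20 * κ) * m1)
    (hm2' : m2 ≤ 14 * κ * m1) (hu1 : 0 < u1) (hu2 : u2 ≤ 7 * ε * u1) (hu2' : |u2| ≤ u1)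
    (hU : 0 < U) (h1 : a1 * U = m1 * u1 + m2 * u2) (h2 : a2 * U = m1 * u2 - m2 * u1) :
    a2 ≤ (τ + 100 * ε) * a1 := by
  have hε0 : 0 ≤ ε := hκ0.trans hκε
  set G : ℝ := m1 * u1 with hG
  have hG0 : 0 < G := mul_pos hm1 hu1
  have h3 : m1 * u2 ≤ 7 * ε * G := by
    have := mul_le_mul_of_nonneg_left hu2 hm1.le
    rw [hG]
    linarith
  have h4 : -(m2 * u1) ≤ (τ + 20 * κ) * G := by
    have := mul_le_mul_of_nonneg_right hm2 hu1.le
    rw [hG]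
    linarith
  have hκG : κ * G ≤ ε * G := mul_le_mul_of_nonneg_right hκε hG0.le
  have h5 : a2 * U ≤ (τ + 27 * ε) * G := by
    rw [h2]
    linarith
  have h6 : -(14 * ε * G) ≤ m2 * u2 := by
    rcases le_total 0 m2 with h | h
    · have h7 : m2 * (-u1) ≤ m2 * u2 := mul_le_mul_of_nonneg_left (abs_le.1 hu2').1 h
      have h8 : m2 * u1 ≤ 14 * κ * m1 * u1 := mul_le_mul_of_nonneg_right hm2' hu1.le
      have h9 : 14 * κ * m1 * u1 = 14 * (κ * G) := by rw [hG]; ring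
      linarith
    · rcases le_total u2 0 with h' | h'
      · have : 0 ≤ m2 * u2 := mul_nonneg_of_nonpos_of_nonpos h h'
        have : 0 ≤ ε * G := by positivity
        linarith
      · have h7 : (-m2) * u2 ≤ (-m2) * (7 * ε * u1) :=
          mul_le_mul_of_nonneg_left hu2 (by linarith)
        have h8 : (-m2) * (7 * ε * u1) ≤ ((τ + 20 * κ) * m1) * (7 * ε * u1) :=
          mul_le_mul_of_nonneg_right hm2 (by positivity)
        have h9 : ((τ + 20 * κ) * m1) * (7 * ε * u1) = (τ + 20 * κ) * (7 * ε * G) := by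
          rw [hG]; ring
        have h10 : (τ + 20 * κ) * (7 * ε * G) ≤ 1 * (7 * ε * G) :=
          mul_le_mul_of_nonneg_right (by linarith) (by positivity)
        have : 0 ≤ ε * G := by positivity
        linarith
  have h7 : (τ + 27 * ε) * G ≤ (τ + 100 * ε) * (a1 * U) := by
    rw [h1]
    have h8 : (τ + 100 * ε) * (G - 14 * ε * G) ≤ (τ + 100 * ε) * (G + m2 * u2) :=
      mul_le_mul_of_nonneg_left (by linarith) (by positivity)
    have h9 : 0 ≤ ε * G := by positivity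
    have h10 : τ * (ε * G) ≤ 1 / 10 * (ε * G) := mul_le_mul_of_nonneg_right hτ h9
    have h11 : ε * (ε * G) ≤ 1 / 10 ^ 5 * (ε * G) := mul_le_mul_of_nonneg_right hε h9
    have h12 : (τ + 100 * ε) * (G - 14 * ε * G) = (τ + 100 * ε) * G - 14 * (τ * (ε * G)) -
        1400 * (ε * (ε * G)) := by ring
    rw [h12] at h8
    linarith
  have h8 : a2 * U ≤ ((τ + 100 * ε) * a1) * U := by linarith
  exact le_of_mul_le_mul_right h8 hU

/-- the unit vector -/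
lemma exists_cs {τ : ℝ} (_h : 0 ≤ τ) :
    ∃ c s : ℝ, 0 < c ∧ c ^ 2 + s ^ 2 = 1 ∧ s = τ * c := by
  have h1 : 0 < 1 + τ ^ 2 := by positivity
  have h2 : √(1 + τ ^ 2) ^ 2 = 1 + τ ^ 2 := Real.sq_sqrt h1.le
  have h3 : 0 < √(1 + τ ^ 2) := Real.sqrt_pos.2 h1
  refine ⟨(√(1 + τ ^ 2))⁻¹, τ * (√(1 + τ ^ 2))⁻¹, by positivity, ?_, rfl⟩
  rw [mul_pow, inv_pow, h2]
  field_simp

lemma tan_small {x ε : ℝ} (hε0 : 0 ≤ ε) (hε : ε ≤ 1 / 10 ^ 5) (h : Real.arctan x ≤ 6 * ε) :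
    x ≤ 7 * ε := by
  rcases le_total x 0 with hx | hx
  · linarith [mul_nonneg (by norm_num : (0 : ℝ) ≤ 7) hε0]
  set y := Real.arctan x with hy
  have hy0 : 0 ≤ y := by rw [hy]; exact Real.arctan_nonneg.2 hx
  have hxt : x = Real.sin y / Real.cos y := by
    rw [← Real.tan_eq_sin_div_cos, hy, Real.tan_arctan]
  have h1 : Real.sin y ≤ y := Real.sin_le hy0
  have h2 : 1 - y ^ 2 / 2 ≤ Real.cos y := Real.one_sub_sq_div_two_le_cos
  have h3 : y ≤ 1 / 10 := by linarith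
  have h4 : 99 / 100 ≤ Real.cos y := by nlinarith
  rw [hxt, div_le_iff₀ (by linarith)]
  have h5 : 7 * ε * (99 / 100) ≤ 7 * ε * Real.cos y :=
    mul_le_mul_of_nonneg_left h4 (by positivity)
  linarith

/-- everything at one time -/
lemma point {ρ τ κ E θ : ℝ} {p A B F H : ℝ → ℂ} (hP : PairF ρ τ κ E θ p A B F H)
    (hA : S_PAIRA) {c s : ℝ} (hc : 0 < c) (hcs : c ^ 2 + s ^ 2 = 1) (hs : s = τ * c)
    {t : ℝ} (ht : t ∈ Icc 0 θ) (hb : |(A t).im| ≤ 1 / 2 * (A t).re) :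
    0 < (A t).re ∧ 0 < (A t + (⟨c, -s⟩ : ℂ) * B t).re ∧
    |(A t + (⟨c, -s⟩ : ℂ) * B t).im| ≤ (A t + (⟨c, -s⟩ : ℂ) * B t).re ∧
    (((ρ : ℂ) * conj (p t) * B t + F t + (⟨c, -s⟩ : ℂ) * ((ρ : ℂ) * p t * A t + H t)) *
      conj (A t + (⟨c, -s⟩ : ℂ) * B t)).im / ‖A t + (⟨c, -s⟩ : ℂ) * B t‖ ^ 2 ≤
      11 / 10 * κ * (2 * (((ρ : ℂ) * conj (p t) * B t + F t + ((ρ : ℂ) * p t * A t + H t)) *
        conj (A t + B t)).re / ‖A t + B t‖ ^ 2) + 6 * κ ∧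
    ∀ ε : ℝ, κ ≤ ε → ε ≤ 1 / 10 ^ 5 →
      (A t + (⟨c, -s⟩ : ℂ) * B t).im ≤ 7 * ε * (A t + (⟨c, -s⟩ : ℂ) * B t).re →
      (A t).im ≤ (τ + 100 * ε) * (A t).re := by
  obtain ⟨h1, -, -, h4⟩ := hA ρ τ κ E θ p A B F H hP
  obtain ⟨hN, hAN, hAB⟩ := h1 t ht
  obtain ⟨hQ, hF, hH, ⟨S, hS, hd⟩, hD⟩ := h4 t ht
  have hτ0 : 0 ≤ τ := hP.hτ.le
  have hτ := hP.hτ'
  have hκ0 := hP.hκ
  have hκ := hP.hκ'
  have hSre : 0 ≤ S.re := by
    have h5 : 0 ≤ τ * S.re := (abs_nonneg _).trans hS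
    exact nonneg_of_mul_nonneg_right h5 hP.hτ
  obtain ⟨hc99, hc1, hcc, hcτ⟩ := c_bounds hτ0 hτ hc hcs hs
  obtain ⟨s1, s2, s3, s4⟩ := stat hτ0 hτ hκ0 hκ hN hc hcs hs hAN hQ hSre hS hd
  set N : ℝ := ‖A t + B t‖ with hNdef
  set ω : ℂ := ⟨c, -s⟩ with hω
  set u : ℂ := A t + ω * B t with hu
  set a : ℝ := ‖A t‖ with ha
  have ha0 : 0 < a := lt_of_lt_of_le (by positivity) hAN
  have ha2 : a ^ 2 = (A t).re ^ 2 + (A t).im ^ 2 := by
    rw [ha, Complex.sq_norm, Complex.normSq_apply]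
    ring
  have ha20 : 0 < a ^ 2 := by positivity
  -- `m = u * conj A`
  set m1 : ℝ := a ^ 2 + (c * (B t * conj (A t)).re + s * (B t * conj (A t)).im) with hm1
  set m2 : ℝ := c * (B t * conj (A t)).im - s * (B t * conj (A t)).re with hm2
  have hm1' : m1 = u.re * (A t).re + u.im * (A t).im := by
    rw [hm1, ha2, hu, hω]
    simp only [Complex.mul_im, Complex.mul_re, Complex.add_im, Complex.add_re, Complex.conj_re,
      Complex.conj_im]
    ring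
  have hm2' : m2 = u.im * (A t).re - u.re * (A t).im := by
    rw [hm2, hu, hω]
    simp only [Complex.mul_im, Complex.mul_re, Complex.add_im, Complex.add_re, Complex.conj_re,
      Complex.conj_im]
    ring
  have hκa : 0 ≤ κ * a ^ 2 := by positivity
  have hκa2 : κ * a ^ 2 ≤ 1 / 10 ^ 4 * a ^ 2 := mul_le_mul_of_nonneg_right hκ ha20.le
  have hm1a : 998 / 1000 * a ^ 2 ≤ m1 := by linarith
  have hm10 : 0 < m1 := lt_of_lt_of_le (by positivity) hm1a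
  have e1 : -m2 ≤ (τ + 20 * κ) * m1 := by
    rw [hm2, neg_sub]
    exact s3
  have e2 : m2 ≤ 14 * κ * m1 := by
    have h6 : κ * (998 / 1000 * a ^ 2) ≤ κ * m1 := mul_le_mul_of_nonneg_left hm1a hκ0
    linarith
  have e3 : |m2| ≤ 11 / 100 * m1 := by
    have h6 : κ * m1 ≤ 1 / 10 ^ 4 * m1 := mul_le_mul_of_nonneg_right hκ hm10.le
    have h7 : τ * m1 ≤ 1 / 10 * m1 := mul_le_mul_of_nonneg_right hτ hm10.le
    rw [abs_le]
    constructor <;> linarith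
  -- the real part of `A`
  have hre0 : 0 ≤ (A t).re := by
    have := (abs_nonneg _).trans hb
    linarith
  have hre : 0 < (A t).re := by
    rcases hre0.eq_or_lt with h | h
    · exfalso
      rw [← h, mul_zero] at hb
      have h7 : (A t).im = 0 := abs_eq_zero.1 (le_antisymm hb (abs_nonneg _))
      rw [← h, h7] at ha2
      linarith
    · exact h
  have v1 : u.re * a ^ 2 = m1 * (A t).re - m2 * (A t).im := by
    rw [hm1', hm2', ha2]
    ring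
  have v2 : u.im * a ^ 2 = m1 * (A t).im + m2 * (A t).re := by
    rw [hm1', hm2', ha2]
    ring
  have hmm : 0 < m1 * (A t).re := mul_pos hm10 hre
  have v3 : |m2 * (A t).im| ≤ 6 / 100 * (m1 * (A t).re) := by
    rw [abs_mul]
    have := mul_le_mul e3 hb (abs_nonneg _) (by positivity)
    linarith
  have v4 : |m1 * (A t).im| ≤ 1 / 2 * (m1 * (A t).re) := by
    rw [abs_mul, abs_of_pos hm10]
    have := mul_le_mul_of_nonneg_left hb hm10.le
    linarith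
  have v5 : |m2 * (A t).re| ≤ 11 / 100 * (m1 * (A t).re) := by
    rw [abs_mul, abs_of_pos hre]
    have := mul_le_mul_of_nonneg_right e3 hre.le
    linarith
  have w1 : 94 / 100 * (m1 * (A t).re) ≤ u.re * a ^ 2 := by
    rw [v1]
    linarith [(abs_le.1 v3).2]
  have w2 : |u.im * a ^ 2| ≤ 61 / 100 * (m1 * (A t).re) := by
    rw [v2]
    refine (abs_add_le _ _).trans ?_
    linarith
  have hure : 0 < u.re := by
    have : 0 < u.re * a ^ 2 := lt_of_lt_of_le (by positivity) w1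
    exact (mul_pos_iff_of_pos_right ha20).1 this
  have huim : |u.im| ≤ u.re := by
    rw [abs_mul, abs_of_pos ha20] at w2
    have : |u.im| * a ^ 2 ≤ u.re * a ^ 2 := by linarith
    exact le_of_mul_le_mul_right this ha20
  have hu2 : ‖u‖ ^ 2 = u.re ^ 2 + u.im ^ 2 := by
    rw [Complex.sq_norm, Complex.normSq_apply]
    ring
  have hU : 49 / 100 * N ^ 2 ≤ ‖u‖ ^ 2 := by
    have h7 : ‖u‖ ^ 2 = a ^ 2 + ‖B t‖ ^ 2 +
        2 * (c * (B t * conj (A t)).re + s * (B t * conj (A t)).im) := by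
      have hB2 : ‖B t‖ ^ 2 = (B t).re ^ 2 + (B t).im ^ 2 := by
        rw [Complex.sq_norm, Complex.normSq_apply]; ring
      rw [hu2, ha2, hB2, hu, hω]
      simp only [Complex.mul_im, Complex.mul_re, Complex.add_im, Complex.add_re, Complex.conj_re,
        Complex.conj_im]
      linear_combination ((B t).re ^ 2 + (B t).im ^ 2) * hcs
    have h8 : N ^ 2 ≤ 2 * (a ^ 2 + ‖B t‖ ^ 2) := by
      have h9 : N ≤ a + ‖B t‖ := norm_add_le _ _
      have h10 : N ^ 2 ≤ (a + ‖B t‖) ^ 2 := pow_le_pow_left₀ hN.le h9 2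
      linarith [sq_nonneg (a - ‖B t‖), show (a + ‖B t‖) ^ 2 + (a - ‖B t‖) ^ 2 =
        2 * (a ^ 2 + ‖B t‖ ^ 2) by ring]
    have h9 : κ * N ^ 2 ≤ 1 / 10 ^ 4 * N ^ 2 := mul_le_mul_of_nonneg_right hκ (sq_nonneg _)
    rw [h7]
    linarith [sq_nonneg N]
  refine ⟨hre, hure, huim, ?_, ?_⟩
  · refine quot hκ0 hκ (by linarith [hP.hρ] : 0 ≤ ρ) (norm_nonneg (p t)) hN (norm_nonneg u) hU hD ?_
    exact dyn (by linarith [hP.hρ]) hτ0 hτ hκ0 hN hc hc1 hcs hs (hP.ps t ht).1 hQ hF hH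
  · intro ε h7 h8 h9
    have hUpos : 0 < ‖u‖ ^ 2 := lt_of_lt_of_le (by positivity) hU
    refine comb (m1 := m1) (m2 := m2) (u1 := u.re) (u2 := u.im) (U := ‖u‖ ^ 2) hτ0 hτ hκ0 h7 h8
      hm10 e1 e2 hure h9 huim hUpos ?_ ?_
    · rw [hu2, hm1', hm2']
      ring
    · rw [hu2, hm1', hm2']
      ring

lemma hd_re {f : ℝ → ℂ} {f' : ℂ} {S : Set ℝ} {x : ℝ} (h : HasDerivWithinAt f f' S x) :
    HasDerivWithinAt (fun r => (f r).re) f'.re S x :=
  Complex.reCLM.hasFDerivAt.comp_hasDerivWithinAt x h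

lemma hd_im {f : ℝ → ℂ} {f' : ℂ} {S : Set ℝ} {x : ℝ} (h : HasDerivWithinAt f f' S x) :
    HasDerivWithinAt (fun r => (f r).im) f'.im S x :=
  Complex.imCLM.hasFDerivAt.comp_hasDerivWithinAt x h

lemma hd_conj {f : ℝ → ℂ} {f' : ℂ} {S : Set ℝ} {x : ℝ} (h : HasDerivWithinAt f f' S x) :
    HasDerivWithinAt (fun r => conj (f r)) (conj f') S x :=
  Complex.conjCLE.toContinuousLinearMap.hasFDerivAt.comp_hasDerivWithinAt x h

lemma half {ρ τ κ E θ Λ : ℝ} {p A B F H : ℝ → ℂ} (hP : PairF ρ τ κ E θ p A B F H)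
    (hA : S_PAIRA) (hΛ : 0 ≤ Λ) (herr : κ * (1 + Λ) ≤ 1 / 10 ^ 5)
    (hN : ∀ t ∈ Icc (0 : ℝ) θ, ‖A t + B t‖ ≤ E * Real.exp Λ)
    {T : ℝ} (hT : T ∈ Icc 0 θ) (hb : ∀ r ∈ Icc (0 : ℝ) T, |(A r).im| ≤ 1 / 2 * (A r).re) :
    (A T).im ≤ (τ + 100 * κ * (1 + Λ)) * (A T).re := by
  obtain ⟨c, s, hc, hcs, hs⟩ := exists_cs hP.hτ.le
  have hpt := fun r (hr : r ∈ Icc 0 T) =>
    point hP hA hc hcs hs (t := r) ⟨hr.1, hr.2.trans hT.2⟩ (hb r hr)
  have hκ0 := hP.hκ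
  have hE := hP.hE
  set ω : ℂ := ⟨c, -s⟩ with hω
  set u : ℝ → ℂ := fun r => A r + ω * B r with hu
  set v : ℝ → ℂ := fun r => A r + B r with hv
  set Da : ℝ → ℂ := fun r => (ρ : ℂ) * conj (p r) * B r + F r with hDa
  set Db : ℝ → ℂ := fun r => (ρ : ℂ) * p r * A r + H r with hDb
  have hud : ∀ r ∈ Icc 0 θ, HasDerivWithinAt u (Da r + ω * Db r) (Icc 0 θ) r :=
    fun r hr => (hP.dA r hr).add ((hP.dB r hr).const_mul ω)
  have hvd : ∀ r ∈ Icc 0 θ, HasDerivWithinAt v (Da r + Db r) (Icc 0 θ) r :=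
    fun r hr => (hP.dA r hr).add (hP.dB r hr)
  have hvpos : ∀ r ∈ Icc 0 θ, 0 < ‖v r‖ ^ 2 := by
    intro r hr
    have := ((hA ρ τ κ E θ p A B F H hP).1 r hr).1
    show 0 < ‖A r + B r‖ ^ 2
    positivity
  have hn2 : ∀ z : ℂ, ‖z‖ ^ 2 = z.re ^ 2 + z.im ^ 2 := by
    intro z
    rw [Complex.sq_norm, Complex.normSq_apply]
    ring
  -- the function
  set g : ℝ → ℝ := fun r => Real.arctan ((u r).im / (u r).re) -
    11 / 10 * κ * Real.log ((v r).re ^ 2 + (v r).im ^ 2) - 6 * κ * r with hg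
  have hgd : ∀ r ∈ Icc 0 T, ∃ D, D ≤ 0 ∧ HasDerivWithinAt g D (Icc 0 θ) r := by
    intro r hr
    have hr' : r ∈ Icc 0 θ := ⟨hr.1, hr.2.trans hT.2⟩
    obtain ⟨-, h1, -, h2, -⟩ := hpt r hr
    have h1' : (u r).re ≠ 0 := ne_of_gt h1
    have hv' : (v r).re ^ 2 + (v r).im ^ 2 ≠ 0 := by
      rw [← hn2]
      exact (hvpos r hr').ne'
    have d1 := ((hd_im (hud r hr')).div (hd_re (hud r hr')) h1').arctan
    have d2 := (((hd_re (hvd r hr')).pow 2).add ((hd_im (hvd r hr')).pow 2)).log hv'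
    have d3 := (d1.sub (d2.const_mul (11 / 10 * κ))).sub
      ((hasDerivWithinAt_id r (Icc 0 θ)).const_mul (6 * κ))
    refine ⟨1 / (1 + ((u r).im / (u r).re) ^ 2) *
        (((Da r + ω * Db r).im * (u r).re - (u r).im * (Da r + ω * Db r).re) / (u r).re ^ 2) -
        11 / 10 * κ * ((((2 : ℕ) : ℝ) * (v r).re ^ (2 - 1) * (Da r + Db r).re +
        ((2 : ℕ) : ℝ) * (v r).im ^ (2 - 1) * (Da r + Db r).im) /
        ((v r).re ^ 2 + (v r).im ^ 2)) - 6 * κ * 1, ?_,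
        (d3.congr_deriv (by
          simp only [Pi.div_apply, Pi.add_apply, Pi.pow_apply])).congr (fun y _ => by
          simp only [Pi.div_apply, Pi.add_apply, Pi.pow_apply, Pi.sub_apply, hg, id]) (by
          simp only [Pi.div_apply, Pi.add_apply, Pi.pow_apply, Pi.sub_apply, hg, id])⟩
    have e1 : 1 / (1 + ((u r).im / (u r).re) ^ 2) *
        (((Da r + ω * Db r).im * (u r).re - (u r).im * (Da r + ω * Db r).re) / (u r).re ^ 2) =
        ((Da r + ω * Db r) * conj (u r)).im / ‖u r‖ ^ 2 := by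
      rw [hn2]
      have h3 : (u r).re ^ 2 + (u r).im ^ 2 ≠ 0 := by positivity
      simp only [Complex.mul_im, Complex.conj_re, Complex.conj_im]
      field_simp
      ring
    have e2 : (((2 : ℕ) : ℝ) * (v r).re ^ (2 - 1) * (Da r + Db r).re +
        ((2 : ℕ) : ℝ) * (v r).im ^ (2 - 1) * (Da r + Db r).im) =
        2 * ((Da r + Db r) * conj (v r)).re := by
      simp only [Complex.mul_re, Complex.conj_re, Complex.conj_im]
      norm_num
      ring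
    have e3 := h2
    rw [show (ρ : ℂ) * conj (p r) * B r + F r = Da r from rfl,
      show (ρ : ℂ) * p r * A r + H r = Db r from rfl,
      show A r + ω * B r = u r from rfl, show A r + B r = v r from rfl] at e3
    rw [← e1, ← e2, hn2] at e3
    linarith
  have hanti : g T ≤ g 0 := by
    have hco : ContinuousOn g (Icc 0 T) := by
      intro r hr
      obtain ⟨D, -, hD⟩ := hgd r hr
      exact hD.continuousWithinAt.mono (Icc_subset_Icc_right hT.2)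
    have hint : ∀ r ∈ interior (Icc 0 T), ∃ D, D ≤ 0 ∧ HasDerivAt g D r := by
      intro r hr
      rw [interior_Icc] at hr
      obtain ⟨D, hD0, hD⟩ := hgd r ⟨hr.1.le, hr.2.le⟩
      exact ⟨D, hD0, hD.hasDerivAt (Icc_mem_nhds hr.1 (lt_of_lt_of_le hr.2 hT.2))⟩
    have := antitoneOn_of_deriv_nonpos (convex_Icc 0 T) hco
      (fun r hr => by
        obtain ⟨D, -, hD⟩ := hint r hr
        exact hD.differentiableAt.differentiableWithinAt)
      (fun r hr => by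
        obtain ⟨D, hD0, hD⟩ := hint r hr
        rw [hD.deriv]
        exact hD0)
    exact this ⟨le_rfl, hT.1⟩ ⟨hT.1, le_rfl⟩ hT.1
  have hT' : T ∈ Icc 0 T := ⟨hT.1, le_rfl⟩
  obtain ⟨-, h1, -, -, h5⟩ := hpt T hT'
  have hε : κ ≤ κ * (1 + Λ) := by nlinarith [mul_nonneg hκ0 hΛ]
  have hκΛ : 0 ≤ κ * Λ := mul_nonneg hκ0 hΛ
  have harc : Real.arctan ((u T).im / (u T).re) ≤ 6 * (κ * (1 + Λ)) := by
    have hu0 : u 0 = (E : ℂ) := by
      show A 0 + ω * B 0 = _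
      rw [hP.A0, hP.B0, mul_zero, add_zero]
    have hv0 : v 0 = (E : ℂ) := by
      show A 0 + B 0 = _
      rw [hP.A0, hP.B0, add_zero]
    have hg0 : g 0 = -(11 / 10 * κ * Real.log (E ^ 2)) := by
      simp only [hg]
      rw [hu0, hv0, Complex.ofReal_im, Complex.ofReal_re, zero_div, Real.arctan_zero]
      ring_nf
    have hgT : g T = Real.arctan ((u T).im / (u T).re) -
      11 / 10 * κ * Real.log ((v T).re ^ 2 + (v T).im ^ 2) - 6 * κ * T := rfl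
    have hlog : Real.log ((v T).re ^ 2 + (v T).im ^ 2) ≤ Real.log (E ^ 2) + 2 * Λ := by
      rw [← hn2]
      have h6 : ‖v T‖ ^ 2 ≤ (E * Real.exp Λ) ^ 2 := pow_le_pow_left₀ (norm_nonneg _) (hN T hT) 2
      have h7 := Real.log_le_log (hvpos T hT) h6
      rw [mul_pow, Real.log_mul (by positivity) (by positivity), Real.log_pow (Real.exp Λ) 2,
        Real.log_exp] at h7
      push_cast at h7
      exact h7
    have h8 := mul_le_mul_of_nonneg_left hlog (show 0 ≤ 11 / 10 * κ by positivity)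
    have h9 : 6 * κ * T ≤ 6 * κ * 1 :=
      mul_le_mul_of_nonneg_left (hT.2.trans hP.hθ') (by positivity)
    rw [hgT, hg0] at hanti
    linarith
  have h10 := tan_small (mul_nonneg hκ0 (by linarith)) herr harc
  have h11 : (u T).im ≤ 7 * (κ * (1 + Λ)) * (u T).re := by
    rwa [div_le_iff₀ h1] at h10
  have := h5 (κ * (1 + Λ)) hε herr h11
  linarith [show (τ + 100 * (κ * (1 + Λ))) * (A T).re = (τ + 100 * κ * (1 + Λ)) * (A T).re by ring]

/-- the conjugate system -/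
lemma conj_pair {ρ τ κ E θ : ℝ} {p A B F H : ℝ → ℂ} (hP : PairF ρ τ κ E θ p A B F H) :
    PairF ρ τ κ E θ (fun t => conj (p t)) (fun t => conj (A t)) (fun t => conj (B t))
      (fun t => conj (F t)) (fun t => conj (H t)) where
  hρ := hP.hρ
  hτ := hP.hτ
  hτ' := hP.hτ'
  hκ := hP.hκ
  hκ' := hP.hκ'
  hE := hP.hE
  hθ := hP.hθ
  hθ' := hP.hθ'
  pc := Complex.continuous_conj.comp_continuousOn hP.pc
  ps t ht := by
    rw [Complex.conj_im, Complex.conj_re, abs_neg, Complex.norm_conj]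
    exact hP.ps t ht
  dA t ht := by
    have := hd_conj (hP.dA t ht)
    simpa only [map_add, map_mul, Complex.conj_ofReal] using this
  dB t ht := by
    have := hd_conj (hP.dB t ht)
    simpa only [map_add, map_mul, Complex.conj_ofReal] using this
  A0 := by
    show conj (A 0) = _
    rw [hP.A0, Complex.conj_ofReal]
  B0 := by
    show conj (B 0) = _
    rw [hP.B0, map_zero]
  small t ht := by
    obtain ⟨s, hs, h1, h2⟩ := hP.small t ht
    refine ⟨s, hs, ?_, ?_⟩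
    · simpa only [Complex.norm_conj] using h1
    · simpa only [Complex.norm_conj] using h2

theorem t_PAIRB : S_PAIRA → S_PAIRB := by
  intro hA ρ τ κ E θ Λ p A B F H hP hΛ herr hN
  -- both halves
  have hmain : ∀ T ∈ Icc (0 : ℝ) θ, (∀ r ∈ Icc (0 : ℝ) T, |(A r).im| ≤ 1 / 2 * (A r).re) →
      |(A T).im| ≤ (τ + 100 * κ * (1 + Λ)) * (A T).re := by
    intro T hT hb
    have h1 := half hP hA hΛ herr hN hT hb
    have h2 := half (conj_pair hP) hA hΛ herr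
      (fun t ht => by
        show ‖conj (A t) + conj (B t)‖ ≤ _
        rw [← map_add, Complex.norm_conj]
        exact hN t ht) hT
      (fun r hr => by
        show |(conj (A r)).im| ≤ 1 / 2 * (conj (A r)).re
        rw [Complex.conj_im, Complex.conj_re, abs_neg]
        exact hb r hr)
    change (conj (A T)).im ≤ _ * (conj (A T)).re at h2
    rw [Complex.conj_im, Complex.conj_re] at h2
    rw [abs_le]
    constructor <;> linarith
  set f : ℝ → ℝ := fun r => |(A r).im| - 1 / 2 * (A r).re with hf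
  have hAc : ContinuousOn A (Icc 0 θ) := fun t ht => (hP.dA t ht).continuousWithinAt
  have hfc : ContinuousOn f (Icc 0 θ) :=
    (Complex.continuous_im.comp_continuousOn hAc).abs.sub
      ((Complex.continuous_re.comp_continuousOn hAc).const_smul (1 / 2 : ℝ))
  have hgood : ∀ t ∈ Icc (0 : ℝ) θ, f t ≤ 0 := by
    by_contra hcon
    push Not at hcon
    obtain ⟨t1, ht1, hft1⟩ := hcon
    set Z : Set ℝ := {t | t ∈ Icc 0 θ ∧ 0 < f t} with hZ
    have hZne : Z.Nonempty := ⟨t1, ht1, hft1⟩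
    have hZb : BddBelow Z := ⟨0, fun t ht => ht.1.1⟩
    set t0 := sInf Z with ht0
    have ht0m : t0 ∈ Icc 0 θ :=
      ⟨le_csInf hZne fun t ht => ht.1.1, (csInf_le hZb ⟨ht1, hft1⟩).trans ht1.2⟩
    have hlt : ∀ r ∈ Ico 0 t0, f r ≤ 0 := by
      intro r hr
      by_contra h
      push Not at h
      exact absurd (csInf_le hZb ⟨⟨hr.1, hr.2.le.trans ht0m.2⟩, h⟩) (not_le.2 hr.2)
    have hft0 : f t0 ≤ 0 := by
      rcases ht0m.1.eq_or_lt with h | h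
      · rw [← h]
        simp only [hf]
        rw [hP.A0, Complex.ofReal_im, Complex.ofReal_re, abs_zero]
        linarith [hP.hE]
      · have hcl : IsClosed (Icc 0 θ ∩ f ⁻¹' Iic 0) :=
          hfc.preimage_isClosed_of_isClosed isClosed_Icc isClosed_Iic
        have hsub : Ico 0 t0 ⊆ Icc 0 θ ∩ f ⁻¹' Iic 0 := fun r hr =>
          ⟨⟨hr.1, hr.2.le.trans ht0m.2⟩, hlt r hr⟩
        have h2 := closure_minimal hsub hcl
        rw [closure_Ico h.ne] at h2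
        exact (h2 ⟨ht0m.1, le_rfl⟩).2
    have hall : ∀ r ∈ Icc (0 : ℝ) t0, |(A r).im| ≤ 1 / 2 * (A r).re := by
      intro r hr
      have : f r ≤ 0 := by
        rcases hr.2.eq_or_lt with h | h
        · rw [h]
          exact hft0
        · exact hlt r ⟨hr.1, h⟩
      simp only [hf] at this
      linarith
    have h3 := hmain t0 ht0m hall
    obtain ⟨c, s, hc, hcs, hs⟩ := exists_cs hP.hτ.le
    have h4 := (point hP hA hc hcs hs ht0m (hall t0 ⟨ht0m.1, le_rfl⟩)).1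
    have h5 : f t0 < 0 := by
      have h6 : (τ + 100 * κ * (1 + Λ)) * (A t0).re ≤ (1 / 10 + 100 * (1 / 10 ^ 5)) * (A t0).re :=
        mul_le_mul_of_nonneg_right (by linarith [hP.hτ']) h4.le
      simp only [hf]
      linarith
    have h7 : ∀ᶠ r in 𝓝[Icc 0 θ] t0, f r < 0 := (hfc t0 ht0m).eventually_lt_const h5
    have h8 : t0 ∈ closure Z := csInf_mem_closure hZne hZb
    have h9 : (𝓝[Z] t0).NeBot := mem_closure_iff_nhdsWithin_neBot.1 h8
    have h10 : ∀ᶠ r in 𝓝[Z] t0, f r < 0 := h7.filter_mono (nhdsWithin_mono _ fun r hr => hr.1)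
    have h11 : ∀ᶠ r in 𝓝[Z] t0, r ∈ Z := self_mem_nhdsWithin
    obtain ⟨r, hr1, hr2⟩ := (h10.and h11).exists
    exact absurd hr1 (not_lt.2 hr2.2.le)
  intro t ht
  refine hmain t ht fun r hr => ?_
  have := hgood r ⟨hr.1, hr.2.trans ht.2⟩
  simp only [hf] at this
  linarith

end Pool.Agent.Y884.EF.PairB
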